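import Mathlib
import Pool.Agent.V11106.GM5

set_option autoImplicit false

open scoped Topology Manifold ContDiff Bundle
open Set Bundle Pool.Agent.V11106

noncomputable section

namespace Pool.Agent.Results.MP_3d2465_an.AdaptedMetric

variable {E : Type*} [NormedAddCommGroup E] [NormedSpace ℝ E]
  {H : Type*} [TopologicalSpace H] {I : ModelWithCorners ℝ E H}
  {M : Type*} [TopologicalSpace M] [ChartedSpace H M]

/-- `p` is a continuous `Df`-invariant splitting of the tangent bundle over `Λ`, given by the
projections `p x` onto the first subbundle along the second one: the first subbundle is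
`{v | p x v = v}`, the second one is `{v | p x v = 0}`. -/
structure Splitting [IsManifold I 1 M] (f : M → M) (Λ : Set M)
    (p : ∀ x : M, TangentSpace I x →ₗ[ℝ] TangentSpace I x) : Prop where
  proj : ∀ x ∈ Λ, ∀ v, p x (p x v) = p x v
  inv : ∀ x ∈ Λ, ∀ v, p (f x) (mfderiv I I f x v) = mfderiv I I f x (p x v)
  cont : ContinuousOn (fun z : TangentBundle I M => (⟨z.1, p z.1 z.2⟩ : TangentBundle I M))
    (TotalSpace.proj ⁻¹' Λ)

/-- **Adapted metrics for volume expansion.** Let `f` be a `C^1` map of a smooth manifold,
`Λ` a closed set with `f Λ ⊆ Λ` over which the derivative is injective, and `p` a continuous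
`Df`-invariant splitting over `Λ`. If for some continuous Riemannian metric `g` the `k`-volumes in
the second subbundle are expanded with some constants `C, l > 0`, then there is a smooth Riemannian
metric for which they are expanded with the constants `1, l'`, for some `l' > 0`. -/
theorem result [FiniteDimensional ℝ E] [IsManifold I ∞ M] [T2Space M] [SigmaCompactSpace M]
    {f : M → M} (hf : ContMDiff I I 1 f) {Λ : Set M} (hΛ : IsClosed Λ) (hfΛ : MapsTo f Λ Λ)
    (hinj : ∀ x ∈ Λ, Function.Injective (mfderiv I I f x))
    {p : ∀ x : M, TangentSpace I x →ₗ[ℝ] TangentSpace I x} (hp : Splitting f Λ p)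
    {k : ℕ} (g : ContinuousRiemannianMetric E (fun x : M => TangentSpace I x)) {C l : ℝ}
    (hC : 0 < C) (hl : 0 < l) (h : VolExp f Λ p k g.inner C l) :
    ∃ g' : ContMDiffRiemannianMetric I ∞ E (fun x : M => TangentSpace I x), ∃ l' > 0,
      VolExp f Λ p k g'.inner 1 l' :=
  exists_adapted hΛ ⟨hf, hfΛ, hinj, hp.inv⟩ hp.proj hp.cont g hC hl h

end Pool.Agent.Results.MP_3d2465_an.AdaptedMetric
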